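import Pool.Agent.J4.H5.FD.Four

/-!
# Divisors of a Fermat number are not congruent to one modulo high powers of two

Let `F_m = 2 ^ (2 ^ m) + 1`, `m ≥ 2`. Every divisor `d` of `F_m` with `d ≡ 1` modulo `2 ^ (2 ^ (m - 2))` is trivial,
that is `d = 1` or `d = F_m`. In other words every divisor `d = k 2 ^ n + 1` of `F_m` with `k` odd and `1 < d < F_m` has
`n < 2 ^ (m - 2)`, that is `4 n < 2 ^ m`. The bound is attained by `641 = 5 * 2 ^ 7 + 1`, which divides `F_5`.

Hence `F_m` is prime if and only if `-1` is a power with exponent `2 ^ (2 ^ (m - 2) - 1)` modulo `F_m`.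

This comes from a complete description of the factorizations
`2 ^ N + 1 = (k 2 ^ n + 1) (l 2 ^ n + 1)` with `k` odd and `4 n ≥ N`, for arbitrary `N`. Either `N = 3 n` and one of the
factors is `2 ^ n + 1`, or `N = 4 n - 2` and it is the Aurifeuillian factorization, where `k` and `l` are the two numbers
`2 ^ (n - 1) ± 1`.

Proof (`Pool/Agent/J4/H5/FD`). Put `k + l = 2 ^ n s` and `k l + s = 2 ^ (n + b)`, `b ≤ n`, and `X = s k - 2 ^ b`,
`T = 2 ^ b`, `a = n - b`. Then `X ≥ 0` and `X ^ 2 - (2 ^ a s ^ 2 - 2) X T + T ^ 2 = s ^ 3`. The equation is symmetric in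
`X` and `T`, and with one of the numbers fixed the other one has a second value (Vieta jumping). The descent ends
with a solution which shows that `s = t ^ 2` is a square and that `t` divides `X` and `T`. Since `s` is odd and `T` is a
power of two, `s = 1`. The remaining equation `X ^ 2 - (2 ^ a - 2) X T + T ^ 2 = 1` is treated by a parity argument along
the same descent.
-/

set_option autoImplicit false

namespace Pool.Agent.Results.MP_37e5fa_nt.DivisorsNearOne

open Pool.Agent.J4.H5.FD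

theorem result :
    -- all factorizations of `2 ^ N + 1` with factors congruent to one modulo `2 ^ n`, `4 n ≥ N`
    (∀ N n k l : ℕ, 1 ≤ n → Odd k → 1 ≤ l →
      (k * 2 ^ n + 1) * (l * 2 ^ n + 1) = 2 ^ N + 1 → N ≤ 4 * n →
      (N = 3 * n ∧ (k = 1 ∨ l = 1)) ∨
      (N + 2 = 4 * n ∧ ((k + 1 = 2 ^ (n - 1) ∧ l = 2 ^ (n - 1) + 1) ∨
        (k = 2 ^ (n - 1) + 1 ∧ l + 1 = 2 ^ (n - 1))))) ∧
    -- divisors of Fermat numbers
    (∀ m d : ℕ, 2 ≤ m → d ∣ 2 ^ 2 ^ m + 1 → d ≡ 1 [MOD 2 ^ 2 ^ (m - 2)] →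
      d = 1 ∨ d = 2 ^ 2 ^ m + 1) ∧
    -- a criterion for primality
    (∀ m : ℕ, 2 ≤ m → ((2 ^ 2 ^ m + 1).Prime ↔
      ∃ x : ℕ, 2 ^ 2 ^ m + 1 ∣ x ^ 2 ^ (2 ^ (m - 2) - 1) + 1)) := by
  refine ⟨?_, fun m d hm hd h => fermat_div hm hd h, fun m hm => fermat_prime_iff hm⟩
  intro N n k l hn hk hl h h4
  rcases h4.eq_or_lt with h5 | h5
  · exact (no_four hn hk hl h h5).elim
  · exact classify hn hk hl h h5

end Pool.Agent.Results.MP_37e5fa_nt.DivisorsNearOne
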