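import Mathlib
import Pool.Agent.J4.H7.FG.Gcd

/-!
# A sparse integer has only a small factor in common with a Fermat number

Let `F_m = 2 ^ (2 ^ m) + 1`, `N = 2 ^ m`, and let `D = u_0 2 ^ a_0 + ... + u_K 2 ^ a_K` with arbitrary integer digits
`u_i` at arbitrary places. Either `F_m` divides `D`, or for every `t ≥ 1`
`gcd(D, F_m) ≤ (4 U) ^ (t ^ K) * 4 ^ (N / t)`, `U = |u_0| + ... + |u_K|`.

For a sum `D` of `w` signed powers of two this gives `gcd(D, F_m) ≤ 2 ^ ((log_2 w + 6) 2 ^ (m (1 - 1 / w)))` for every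
`w`, and `gcd(D, F_m) ≤ F_m ^ ε` for `w ≤ c m`. So every divisor `F_m ^ ε ≤ d < F_m` of a Fermat number has at least
`c m` nonzero digits in every signed binary expansion: a large factor of `F_m` alone is not sparse, in whatever way the
cofactor looks like.

Proof (`Pool/Agent/J4/H7/FG`). Shift and reduce the exponents modulo `N` (with a sign), so that `a_0 = 0` and
`0 ≤ a_i < N`. By Dirichlet there is `1 ≤ q ≤ t ^ K` such that `a_i` is close to a multiple `α_i N / q` of `N / q` for all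
`i`. The polynomials `P = X ^ q + 2 ^ N` and `β = ∑ u_i 2 ^ a_i X ^ (q - α_i)` have the values `F_m` and `D` at `X = 1`.
`P` is irreducible over `ℚ` because `N` is a power of two. If `P` divides `β` then `β` is an integer multiple of `P` and
`F_m` divides `D`. Otherwise the norm of `β` modulo `P` is not zero and divisible by `gcd(D, F_m)`; in the basis
`X ^ k / 2 ^ ⌊N k / q⌋` the matrix of `β / X ^ q`, multiplied by a power of two of size about `N / (t q)`, has small integer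
entries, and this bounds the odd part of the norm.
-/

set_option autoImplicit false

open Finset Filter

namespace Pool.Agent.Results.MP_37e5fa_nt.GcdWithSparseIntegers

/-- `D` is a sum of `w` signed powers of two. -/
def IsSum (w : ℕ) (D : ℤ) : Prop :=
  ∃ (ε : Fin w → ℤ) (a : Fin w → ℕ), (∀ i, ε i = 1 ∨ ε i = -1) ∧ D = ∑ i, ε i * 2 ^ (a i)

lemma cast_fermat (m : ℕ) : ((Nat.fermatNumber m : ℕ) : ℤ) = 2 ^ (2 ^ m) + 1 := by
  unfold Nat.fermatNumber; push_cast; rfl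

lemma isSum_bound (m w t : ℕ) (D : ℤ) (ht : 0 < t) (h : IsSum w D) (hF : ¬ (Nat.fermatNumber m : ℤ) ∣ D) :
    0 < w ∧ (D.gcd (Nat.fermatNumber m) : ℝ) ≤ (4 * w : ℝ) ^ (t ^ (w - 1)) * 4 ^ (2 ^ m / t) := by
  obtain ⟨ε, a, hε, hD⟩ := h
  cases w with
  | zero =>
    exfalso
    apply hF
    rw [hD]
    simp
  | succ K =>
    refine ⟨Nat.succ_pos _, ?_⟩
    have h1 := Pool.Agent.J4.H7.FG.gcd_bound m K t ht ε a (by rw [← cast_fermat, ← hD]; exact hF)
    have h2 : ∑ i, |ε i| = ((K + 1 : ℕ) : ℤ) := by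
      rw [Finset.sum_congr rfl fun i _ => show |ε i| = 1 by rcases hε i with h | h <;> simp [h]]
      simp
    rw [h2, ← hD, ← cast_fermat] at h1
    rw [Nat.add_sub_cancel]
    exact_mod_cast h1

/-- the bound for a fixed number of terms -/
lemma fixed_weight (m w : ℕ) (D : ℤ) (h : IsSum w D) (hF : ¬ (Nat.fermatNumber m : ℤ) ∣ D) :
    (D.gcd (Nat.fermatNumber m) : ℝ) ≤ (2 : ℝ) ^ ((Real.logb 2 w + 6) * (2 : ℝ) ^ ((m : ℝ) * (1 - 1 / w))) := by
  have hw : 0 < w := (isSum_bound m w 1 D one_pos h hF).1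
  have hw' : (0 : ℝ) < w := by exact_mod_cast hw
  obtain ⟨x, hx⟩ : ∃ x : ℝ, x = (2 : ℝ) ^ ((m : ℝ) / w) := ⟨_, rfl⟩
  have hx1 : 1 ≤ x := by rw [hx]; exact Real.one_le_rpow (by norm_num) (by positivity)
  have hx0 : 0 < x := by linarith
  obtain ⟨t, ht⟩ : ∃ t, t = ⌊x⌋₊ := ⟨_, rfl⟩
  have ht0 : 0 < t := by rw [ht]; exact Nat.floor_pos.2 hx1
  have htx : (t : ℝ) ≤ x := by rw [ht]; exact Nat.floor_le hx0.le
  have hxt : x < t + 1 := by rw [ht]; exact Nat.lt_floor_add_one x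
  have ht1 : (1 : ℝ) ≤ t := by exact_mod_cast ht0
  refine (isSum_bound m w t D ht0 h hF).2.trans ?_
  obtain ⟨Y, hY⟩ : ∃ Y : ℝ, Y = (2 : ℝ) ^ ((m : ℝ) * (1 - 1 / w)) := ⟨_, rfl⟩
  have hY0 : 0 < Y := by rw [hY]; positivity
  -- `x ^ w = 2 ^ m`, `Y = 2 ^ m / x`
  have hYx : Y * x = 2 ^ m := by
    rw [hY, hx, ← Real.rpow_add (by norm_num), ← Real.rpow_natCast]
    congr 1
    field_simp
    ring
  have hxw : x ^ (w - 1) = Y := by
    rw [hx, hY, ← Real.rpow_natCast, ← Real.rpow_mul (by norm_num), Nat.cast_sub hw]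
    congr 1
    push_cast
    field_simp
  have h1 : ((t ^ (w - 1) : ℕ) : ℝ) ≤ Y := by
    push_cast
    rw [← hxw]
    exact pow_le_pow_left₀ (by positivity) htx _
  have h2 : ((2 ^ m / t : ℕ) : ℝ) ≤ 2 * Y := by
    refine (Nat.cast_div_le).trans ?_
    rw [div_le_iff₀ (by positivity)]
    push_cast
    rw [← hYx]
    have : x ≤ 2 * t := by linarith
    nlinarith
  have h4w : (1 : ℝ) ≤ 4 * w := by
    have : (1 : ℝ) ≤ w := by exact_mod_cast hw
    linarith
  calc (4 * w : ℝ) ^ (t ^ (w - 1)) * 4 ^ (2 ^ m / t) ≤ (4 * w : ℝ) ^ Y * (4 : ℝ) ^ (2 * Y) := by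
        apply mul_le_mul _ _ (by positivity) (by positivity)
        · rw [← Real.rpow_natCast]
          exact Real.rpow_le_rpow_of_exponent_le h4w h1
        · rw [← Real.rpow_natCast]
          exact Real.rpow_le_rpow_of_exponent_le (by norm_num) h2
    _ = (2 : ℝ) ^ ((Real.logb 2 w + 6) * Y) := by
        have e1 : (4 * w : ℝ) = (2 : ℝ) ^ (2 + Real.logb 2 w) := by
          rw [Real.rpow_add (by norm_num), Real.rpow_logb (by norm_num) (by norm_num) hw']
          norm_num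
        have e2 : (4 : ℝ) = (2 : ℝ) ^ (2 : ℝ) := by norm_num
        rw [e1, ← Real.rpow_mul (by norm_num)]
        conv_lhs => rw [e2]
        rw [← Real.rpow_mul (by norm_num), ← Real.rpow_add (by norm_num)]
        congr 1
        ring
    _ = _ := by rw [hY]

/-- the weight grows linearly with `m` -/
lemma linear_weight (t : ℕ) (ε c : ℝ) (ht : 2 ≤ t) (hε : 2 / t < ε) (hc : c * Real.log t < Real.log 2) :
    ∀ᶠ m : ℕ in atTop, ∀ (w : ℕ) (D : ℤ), (w : ℝ) ≤ c * m → IsSum w D → ¬ (Nat.fermatNumber m : ℤ) ∣ D →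
      (D.gcd (Nat.fermatNumber m) : ℝ) ≤ (Nat.fermatNumber m : ℝ) ^ ε := by
  have ht0 : (0 : ℝ) < t := by exact_mod_cast (by omega : 0 < t)
  have ht1 : (1 : ℝ) < t := by exact_mod_cast (by omega : 1 < t)
  have hlt : 0 < Real.log t := Real.log_pos ht1
  obtain ⟨δ, hδ⟩ : ∃ δ, δ = Real.log 2 - c * Real.log t := ⟨_, rfl⟩
  have hδ0 : 0 < δ := by rw [hδ]; linarith
  obtain ⟨η, hη⟩ : ∃ η, η = (ε - 2 / t) * Real.log 2 := ⟨_, rfl⟩
  have hη0 : 0 < η := by
    rw [hη]
    exact mul_pos (by linarith) (Real.log_pos (by norm_num))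
  -- the limit
  have hlim : Tendsto (fun m : ℕ => (4 * |c| / δ) * ((δ * m) ^ 1 * Real.exp (-(δ * m)))) atTop (nhds 0) := by
    have h1 := Real.tendsto_pow_mul_exp_neg_atTop_nhds_zero 1
    have h2 : Tendsto (fun m : ℕ => δ * (m : ℝ)) atTop atTop :=
      Tendsto.const_mul_atTop hδ0 tendsto_natCast_atTop_atTop
    have h3 := (h1.comp h2).const_mul (4 * |c| / δ)
    rw [mul_zero] at h3
    exact h3
  filter_upwards [hlim.eventually (gt_mem_nhds hη0)] with m hm w D hw hD hF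
  have hw0 : 0 < w := (isSum_bound m w 1 D one_pos hD hF).1
  have hw0' : (1 : ℝ) ≤ w := by exact_mod_cast hw0
  refine (isSum_bound m w t D (by omega) hD hF).2.trans ?_
  have hFge : (2 : ℝ) ^ ((2 : ℝ) ^ m) ≤ (Nat.fermatNumber m : ℝ) := by
    unfold Nat.fermatNumber
    push_cast
    have h1 : ((2 ^ m : ℕ) : ℝ) = (2 : ℝ) ^ m := by push_cast; rfl
    rw [← h1, Real.rpow_natCast]
    linarith
  have hε0 : 0 ≤ ε := le_trans (by positivity) hε.le
  have hcm : 0 < c * m := lt_of_lt_of_le (by exact_mod_cast hw0) hw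
  -- logarithms
  have hlog : (t : ℝ) ^ (w - 1) * Real.log (4 * w) ≤ η * 2 ^ m := by
    have e1 : (t : ℝ) ^ (w - 1) ≤ Real.exp (-(δ * m)) * 2 ^ m := by
      calc (t : ℝ) ^ (w - 1) ≤ (t : ℝ) ^ (w : ℝ) := by
            rw [Real.rpow_natCast]
            exact pow_le_pow_right₀ ht1.le (Nat.sub_le _ _)
        _ ≤ (t : ℝ) ^ (c * m) := Real.rpow_le_rpow_of_exponent_le ht1.le hw
        _ = Real.exp (-(δ * m)) * 2 ^ m := by
            rw [Real.rpow_def_of_pos ht0, show (2 : ℝ) ^ m = Real.exp (Real.log 2 * m) by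
              rw [← Real.rpow_natCast, Real.rpow_def_of_pos (by norm_num)], ← Real.exp_add, hδ]
            congr 1
            ring
    have e2 : Real.log (4 * w) ≤ 4 * |c| * m := by
      have h1 : Real.log (4 * w) ≤ 4 * w := (Real.log_le_sub_one_of_pos (by positivity)).trans (by linarith)
      have h2 : (w : ℝ) ≤ |c| * m := hw.trans (mul_le_mul_of_nonneg_right (le_abs_self c) (Nat.cast_nonneg _))
      linarith
    have e3 : 0 ≤ Real.log (4 * w) := Real.log_nonneg (by linarith)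
    calc (t : ℝ) ^ (w - 1) * Real.log (4 * w) ≤ (Real.exp (-(δ * m)) * 2 ^ m) * (4 * |c| * m) :=
          mul_le_mul e1 e2 e3 (by positivity)
      _ = (4 * |c| / δ) * ((δ * m) ^ 1 * Real.exp (-(δ * m))) * 2 ^ m := by
          field_simp
      _ ≤ η * 2 ^ m := mul_le_mul_of_nonneg_right hm.le (by positivity)
  have hdiv : ((2 ^ m / t : ℕ) : ℝ) ≤ 2 ^ m / t := by
    refine (Nat.cast_div_le).trans (le_of_eq ?_)
    push_cast
    rfl
  calc (4 * w : ℝ) ^ (t ^ (w - 1)) * 4 ^ (2 ^ m / t) =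
        Real.exp ((t : ℝ) ^ (w - 1) * Real.log (4 * w)) * Real.exp (((2 ^ m / t : ℕ) : ℝ) * (2 * Real.log 2)) := by
        congr 1
        · rw [← Real.rpow_natCast, Real.rpow_def_of_pos (by positivity)]
          push_cast
          rw [mul_comm]
        · rw [← Real.rpow_natCast, Real.rpow_def_of_pos (by norm_num), show (4 : ℝ) = 2 ^ 2 by norm_num, Real.log_pow]
          push_cast
          rw [mul_comm]
    _ ≤ Real.exp (η * 2 ^ m) * Real.exp ((2 ^ m / t) * (2 * Real.log 2)) := by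
        apply mul_le_mul (Real.exp_le_exp.2 hlog) _ (Real.exp_pos _).le (Real.exp_pos _).le
        apply Real.exp_le_exp.2
        exact mul_le_mul_of_nonneg_right hdiv (by positivity)
    _ = ((2 : ℝ) ^ ((2 : ℝ) ^ m)) ^ ε := by
        rw [← Real.exp_add, ← Real.rpow_mul (by norm_num), Real.rpow_def_of_pos (by norm_num), hη]
        congr 1
        field_simp
        ring
    _ ≤ (Nat.fermatNumber m : ℝ) ^ ε := Real.rpow_le_rpow (by positivity) hFge hε0

/-- a factor `d ≥ √F_m` -/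
lemma half {m d e : ℕ} (hde : d * e = Nat.fermatNumber m) (he : 1 < e) (hed : e ≤ d) :
    ¬ (Nat.fermatNumber m : ℤ) ∣ d ∧ (Int.gcd (d : ℤ) (Nat.fermatNumber m) : ℕ) = d ∧ Nat.fermatNumber m ≤ d ^ 2 ∧
      0 < d := by
  have hFpos : 0 < Nat.fermatNumber m := by unfold Nat.fermatNumber; positivity
  have hd : 0 < d := Nat.pos_of_ne_zero fun h => by rw [h, zero_mul] at hde; omega
  refine ⟨fun h => ?_, ?_, ?_, hd⟩
  · have h1 : Nat.fermatNumber m ∣ d := by exact_mod_cast h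
    have h2 := Nat.le_of_dvd hd h1
    rw [← hde] at h2
    nlinarith
  · rw [Int.gcd_natCast_natCast]
    exact Nat.gcd_eq_left ⟨e, hde.symm⟩
  · rw [← hde, sq]
    exact Nat.mul_le_mul_left _ hed

/-- **A sparse integer has only a small factor in common with a Fermat number.** -/
theorem result :
    -- (1) arbitrary digits `u i` at arbitrary places `a i`
    (∀ (m K t : ℕ) (u : Fin (K + 1) → ℤ) (a : Fin (K + 1) → ℕ), 0 < t →
      ¬ (Nat.fermatNumber m : ℤ) ∣ ∑ i, u i * 2 ^ (a i) →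
      ((∑ i, u i * 2 ^ (a i)).gcd (Nat.fermatNumber m) : ℤ) ≤ (4 * ∑ i, |u i|) ^ (t ^ K) * 4 ^ (2 ^ m / t)) ∧
    -- (2) a given number `w` of signed powers of two
    (∀ (m w : ℕ) (D : ℤ), IsSum w D → ¬ (Nat.fermatNumber m : ℤ) ∣ D →
      (D.gcd (Nat.fermatNumber m) : ℝ) ≤ (2 : ℝ) ^ ((Real.logb 2 w + 6) * (2 : ℝ) ^ ((m : ℝ) * (1 - 1 / w)))) ∧
    -- (3) up to `c m` signed powers of two
    (∀ (t : ℕ) (ε c : ℝ), 2 ≤ t → 2 / t < ε → c * Real.log t < Real.log 2 →
      ∀ᶠ m : ℕ in atTop, ∀ (w : ℕ) (D : ℤ), (w : ℝ) ≤ c * m → IsSum w D → ¬ (Nat.fermatNumber m : ℤ) ∣ D →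
        (D.gcd (Nat.fermatNumber m) : ℝ) ≤ (Nat.fermatNumber m : ℝ) ^ ε) ∧
    -- (4) the larger factor of every nontrivial factorization, explicitly
    (∀ m d e w : ℕ, d * e = Nat.fermatNumber m → 1 < e → e ≤ d → IsSum w d → 2 ^ m < w * 8 ^ w) ∧
    -- (5) the larger factor of every nontrivial factorization, asymptotically
    (∀ᶠ m : ℕ in atTop, ∀ d e w : ℕ, d * e = Nat.fermatNumber m → 1 < e → e ≤ d → IsSum w d →
      (0.43 : ℝ) * m < w) := by
  refine ⟨fun m K t u a ht hF => ?_, fixed_weight, linear_weight, fun m d e w hde he hed hw => ?_, ?_⟩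
  · rw [cast_fermat] at hF ⊢
    exact Pool.Agent.J4.H7.FG.gcd_bound m K t ht u a hF
  · obtain ⟨h1, h2, h3, hd⟩ := half hde he hed
    obtain ⟨hw0, h4⟩ := isSum_bound m w 8 d (by norm_num) hw h1
    rw [h2] at h4
    by_contra hcon
    push Not at hcon
    -- `d ≤ (4 w) ^ (8 ^ (w - 1)) 4 ^ (2 ^ m / 8)` and `w 8 ^ w ≤ 2 ^ m`
    have h5 : d ≤ (4 * w) ^ (8 ^ (w - 1)) * 4 ^ (2 ^ m / 8) := by exact_mod_cast h4
    have h6 : 2 ^ (2 ^ m) < ((4 * w) ^ (8 ^ (w - 1)) * 4 ^ (2 ^ m / 8)) ^ 2 := by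
      have : 2 ^ (2 ^ m) < Nat.fermatNumber m := by unfold Nat.fermatNumber; exact Nat.lt_succ_self _
      exact this.trans_le (h3.trans (Nat.pow_le_pow_left h5 2))
    have h7 : 4 * w ≤ 2 ^ (2 * w) := by
      have h8 : w ≤ 2 ^ (w - 1) := by
        have := Nat.lt_two_pow_self (n := w - 1)
        omega
      calc 4 * w ≤ 4 * 2 ^ (w - 1) := Nat.mul_le_mul_left _ h8
        _ = 2 ^ (2 + (w - 1)) := by rw [pow_add]; norm_num
        _ ≤ 2 ^ (2 * w) := Nat.pow_le_pow_right (by norm_num) (by omega)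
    have h8 : ((4 * w) ^ (8 ^ (w - 1)) * 4 ^ (2 ^ m / 8)) ^ 2 ≤ 2 ^ (2 ^ m) := by
      calc ((4 * w) ^ (8 ^ (w - 1)) * 4 ^ (2 ^ m / 8)) ^ 2 ≤
            ((2 ^ (2 * w)) ^ (8 ^ (w - 1)) * 4 ^ (2 ^ m / 8)) ^ 2 := by gcongr
        _ = 2 ^ (4 * w * 8 ^ (w - 1) + 4 * (2 ^ m / 8)) := by
            rw [show (4 : ℕ) ^ (2 ^ m / 8) = 2 ^ (2 * (2 ^ m / 8)) by rw [pow_mul]; norm_num, ← pow_mul, ← pow_add, ← pow_mul]
            congr 1
            ring
        _ ≤ 2 ^ (2 ^ m) := by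
            apply Nat.pow_le_pow_right (by norm_num)
            have e1 : 2 * (4 * w * 8 ^ (w - 1)) = w * 8 ^ w := by
              obtain ⟨v, rfl⟩ : ∃ v, w = v + 1 := ⟨w - 1, by omega⟩
              rw [Nat.add_sub_cancel, pow_succ]
              ring
            have e2 : 8 * (2 ^ m / 8) ≤ 2 ^ m := Nat.mul_div_le _ _
            omega
    exact absurd (h6.trans_le h8) (lt_irrefl _)
  · have hlog : (0.43 : ℝ) * Real.log (5 : ℕ) < Real.log 2 := by
      have h1 : (5 : ℝ) ^ 43 < 2 ^ 100 := by norm_num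
      have h2 := Real.log_lt_log (by positivity) h1
      rw [Real.log_pow, Real.log_pow] at h2
      push_cast at h2 ⊢
      linarith
    filter_upwards [linear_weight 5 0.45 0.43 (by norm_num) (by norm_num) hlog] with m hm d e w hde he hed hw
    obtain ⟨h1, h2, h3, hd⟩ := half hde he hed
    by_contra hcon
    push Not at hcon
    have h4 := hm w d hcon hw h1
    rw [h2] at h4
    have hF1 : (1 : ℝ) < Nat.fermatNumber m := by
      have : 1 < Nat.fermatNumber m := by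
        unfold Nat.fermatNumber
        have : 0 < 2 ^ 2 ^ m := by positivity
        omega
      exact_mod_cast this
    have h5 : (Nat.fermatNumber m : ℝ) ≤ (d : ℝ) ^ 2 := by exact_mod_cast h3
    have h6 : (d : ℝ) ^ 2 ≤ (Nat.fermatNumber m : ℝ) ^ (0.9 : ℝ) := by
      calc (d : ℝ) ^ 2 ≤ ((Nat.fermatNumber m : ℝ) ^ (0.45 : ℝ)) ^ 2 := pow_le_pow_left₀ (Nat.cast_nonneg _) h4 2
        _ = _ := by
          rw [← Real.rpow_natCast, ← Real.rpow_mul (by linarith)]
          norm_num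
    have h7 : (Nat.fermatNumber m : ℝ) ^ (0.9 : ℝ) < (Nat.fermatNumber m : ℝ) ^ (1 : ℝ) :=
      Real.rpow_lt_rpow_of_exponent_lt hF1 (by norm_num)
    rw [Real.rpow_one] at h7
    linarith

end Pool.Agent.Results.MP_37e5fa_nt.GcdWithSparseIntegers
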