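import Mathlib
import Pool.Agent.J4.H64.FN.Prod

/-!
# MP_37e5fa_nt: every proper divisor `d` of a Fermat number has a large odd part of `d - 1`

`F_m = 2 ^ (2 ^ m) + 1` is prime if and only if `φ(F_m)` is a power of two, that is if its odd part `K`
is `1` (Gauss: if and only if the regular `F_m`-gon is constructible). We show that `K` is enormous
otherwise: `K > exp (√(log 3 log F_m)) / √6` for every composite `F_m`, and `K > F_m ^ (1 / (r + 1)) / 2`
if `F_m` has `r` prime factors (with multiplicity). So `F_m` is prime if and only if the odd part of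
`φ(F_m)` is at most `exp (√(log 3 log F_m)) / √6`, and a composite `F_m` is a pseudoprime to very few
bases: the proportion of the residues `b` with `b ^ (F_m - 1) ≡ 1` modulo `F_m` is at most
`√6 exp (- √(log 3 log F_m))`, about `2 ^ (- 1.26 ⋅ 2 ^ (m / 2))`.

The reason is a lower bound for every single divisor: if `d = k 2 ^ n + 1` with `k` odd divides `F_m`,
`1 < d < F_m`, then `k ≥ 3` and `6 k ^ ⌊2 ^ m / n⌋ > 5 k 2 ^ n`; so `log k > (log d) ^ 2 / (log F_m + log d)`
up to a bounded error. More generally this holds for the divisors of all numbers `2 ^ N + 1`.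

Proof. Let `N = a n + b` with `0 ≤ b < n`. Modulo `d = k 2 ^ n + 1` one has `k ^ a 2 ^ N = (k 2 ^ n) ^ a 2 ^ b ≡
(-1) ^ a 2 ^ b` and `2 ^ N ≡ -1`, so `d` divides `k ^ a + (-1) ^ a 2 ^ b`, which is not zero as `k ≥ 3` is odd.
Hence `d ≤ k ^ a + 2 ^ b`. For the products one adds the inequalities for the logarithms of the factors
(Cauchy's inequality); for the totient this is combined with `K ≥ 3 ^ r`.
-/

set_option autoImplicit false

namespace Pool.Agent.Results.MP_37e5fa_nt.LargeOddParts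

/-- The odd part of a natural number: `x` divided by the largest power of `2` that divides it. -/
def oddPart (x : ℕ) : ℕ := x / 2 ^ x.factorization 2

/-- (1) If `k 2 ^ n + 1` divides `2 ^ N + 1`, where `n ≥ 1` and `k ≥ 3` is odd, then
`5 k 2 ^ n < 6 k ^ ⌊N / n⌋`.

(2) If `d` divides `F_m`, `1 < d < F_m`, `k` is the odd part of `d - 1` and `2 ^ n` its largest power of two,
then `k ≥ 3` and `5 (d - 1) < 6 k ^ ⌊2 ^ m / n⌋`.

(3) If `F_m = d_1 ⋯ d_r` with `r ≥ 2` factors `d_i > 1`, and `k_i` is the odd part of `d_i - 1`, then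
`F_m < (2 k_1 ⋯ k_r) ^ (r + 1)`.

(4) `F_m` is prime if and only if `√6 K ≤ exp (√(log 3 log F_m))`, where `K` is the odd part of `φ(F_m)`.

(5) If `F_m` is composite then the number of residues `b` modulo `F_m` with `b ^ (F_m - 1) = 1` is at most
`√6 F_m / exp (√(log 3 log F_m))`. -/
theorem result :
    (∀ N n k : ℕ, 1 ≤ n → Odd k → 3 ≤ k → k * 2 ^ n + 1 ∣ 2 ^ N + 1 →
      5 * (k * 2 ^ n) < 6 * k ^ (N / n)) ∧
    (∀ m d : ℕ, d ∣ Nat.fermatNumber m → 1 < d → d < Nat.fermatNumber m →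
      3 ≤ oddPart (d - 1) ∧
        5 * (d - 1) < 6 * oddPart (d - 1) ^ (2 ^ m / (d - 1).factorization 2)) ∧
    (∀ (m r : ℕ) (d : Fin r → ℕ), 2 ≤ r → (∀ i, 1 < d i) → ∏ i, d i = Nat.fermatNumber m →
      Nat.fermatNumber m < (2 * ∏ i, oddPart (d i - 1)) ^ (r + 1)) ∧
    (∀ m : ℕ, (Nat.fermatNumber m).Prime ↔
      √6 * oddPart (Nat.fermatNumber m).totient ≤
        Real.exp (√(Real.log 3 * Real.log (Nat.fermatNumber m)))) ∧
    (∀ m : ℕ, ¬ (Nat.fermatNumber m).Prime →
      (Set.ncard {b : ZMod (Nat.fermatNumber m) | b ^ (Nat.fermatNumber m - 1) = 1} : ℝ) ≤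
        √6 * Nat.fermatNumber m / Real.exp (√(Real.log 3 * Real.log (Nat.fermatNumber m)))) := by
  refine ⟨fun N n k hn hk hk3 h => Pool.Agent.J4.H64.FN.div_lt hn hk hk3 h,
    fun m d hd h1 hlt => Pool.Agent.J4.H64.FN.proper_div hd h1 hlt, fun m r d hr hd hp => ?_,
    Pool.Agent.J4.H64.FN.prime_iff, fun m hF => ?_⟩
  · have h := Pool.Agent.J4.H64.FN.prod_bound m r hr d hd hp
    exact_mod_cast h
  · rw [le_div_iff₀ (Real.exp_pos _)]
    exact Pool.Agent.J4.H64.FN.liars_exp m hF

end Pool.Agent.Results.MP_37e5fa_nt.LargeOddParts
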