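import Pool.Agent.J4.H23.SF.Fermat

/-!
# A composite Fermat number has no factorization into sparse factors

Let `F_m = 2 ^ (2 ^ m) + 1` be composite and let `F_m = d_1 ⋯ d_r` be any factorization with at least
two factors other than `± 1`. Let `w(d)` be the least number of signed powers of two whose sum is `d`
(the number of nonzero digits of the nonadjacent form), and let `W = w(d_1) + ⋯ + w(d_r)`. Then
`2 ^ m ≤ (W + 1) ^ 2 r ^ W`. For two factors, `F_m = d e`:
`2 ^ m ≤ (w(d) + w(e) + 1) binom(w(d) + w(e), w(d)) log_2 (w(d) w(e) + 2)`, hence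
`w(d) + w(e) > m - 2 log_2 m - 2`.

More generally the digits can be arbitrary integers and one can factor a multiple of `F_m`: if
`c F_m = ∏ d_k`, `c ≠ 0`, `d_k = ∑_{i ∈ S_k} u_{k,i} 2 ^ i`, then either the product of all `d_k` but one
divides `c` or `2 ^ m ≤ (∑ |S_k| + 1) multinomial(|S_1|, …, |S_r|) log_2 (∏_k (∑_i |u_{k,i}|) + 2 |c|)`.

Proof (`Pool/Agent/J4/H23/SF`). Expand the product as a sum of powers of two. Powers with far exponents do
not interact, so the sum over every cluster of close exponents vanishes (after moving `c 2 ^ N + c` to the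
left). The closeness relations between the exponents are relations with small right-hand side between the
unknown positions of the digits and `N = 2 ^ m`; their coefficient matrices consist of `r` incidence parts and
a column, so their minors are at most the multinomial coefficient, and by Cramer's rule either `N` is small or
there is an integer solution of the homogeneous relations with `N` replaced by some `q`, `0 < q < N`. This
gives `∏ D_k(X) = c (2 ^ N X ^ q + 1)` (up to a power of `X`) with integer polynomials, `D_k(1) = d_k`, and the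
right-hand side is irreducible over `ℚ` since `q < 2 N` (here `N = 2 ^ m` is used).
-/

set_option autoImplicit false

namespace Pool.Agent.Results.MP_37e5fa_nt.SparseFactors

open Finset Pool.Agent.J4.H23.SF

/-- `n` is a sum of at most `w` powers of two with signs and with distinct exponents, that is, its
nonadjacent form has at most `w` nonzero digits -/
def IsSum (w : ℕ) (n : ℤ) : Prop :=
  ∃ (S : Finset ℕ) (u : ℕ → ℤ), S.card ≤ w ∧ (∀ i ∈ S, u i = 1 ∨ u i = -1) ∧
    n = ∑ i ∈ S, u i * 2 ^ i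

theorem general (m r : ℕ) (c : ℤ) (hc : c ≠ 0) (S : Fin r → Finset ℕ) (u : Fin r → ℕ → ℤ)
    (hde : ∏ k, ∑ i ∈ S k, u k i * 2 ^ i = c * (2 ^ (2 ^ m) + 1)) :
    (∃ k₀, ∏ k ∈ univ.erase k₀, ∑ i ∈ S k, u k i * 2 ^ i ∣ c) ∨
      2 ^ m ≤ (∑ k, (S k).card + 1) * Nat.multinomial univ (fun k => (S k).card) *
        Nat.log 2 ((∏ k, ∑ i ∈ S k, |u k i|) + 2 * |c|).natAbs := by
  by_contra hcon
  push Not at hcon
  obtain ⟨h1, h2⟩ := hcon
  obtain ⟨k₀, hk₀⟩ := fermat m c hc S u hde _ (Int.le_natAbs) h2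
  exact h1 k₀ hk₀

theorem sum_abs (S : Finset ℕ) (u : ℕ → ℤ) (h : ∀ i ∈ S, u i = 1 ∨ u i = -1) :
    ∑ i ∈ S, |u i| = S.card := by
  rw [Finset.sum_congr rfl (fun i hi => show |u i| = 1 by rcases h i hi with h | h <;> rw [h] <;> simp)]
  simp

theorem several (m r : ℕ) (d : Fin r → ℤ) (w : Fin r → ℕ) (hd : ∏ k, d k = 2 ^ (2 ^ m) + 1)
    (hkl : ∃ k l, k ≠ l ∧ 1 < |d k| ∧ 1 < |d l|) (hw : ∀ k, IsSum (w k) (d k)) :
    2 ^ m ≤ (∑ k, w k + 1) ^ 2 * r ^ (∑ k, w k) := by
  choose S u hS hu hdS using hw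
  have h1 := general m r 1 one_ne_zero S u (by
    rw [one_mul, ← hd]
    exact Finset.prod_congr rfl fun k _ => (hdS k).symm)
  have hr : 0 < r := by
    obtain ⟨k, _⟩ := hkl
    exact k.pos
  rcases h1 with ⟨k₀, hk₀⟩ | h1
  · exfalso
    have hdvd : ∀ k, k ≠ k₀ → d k ∣ 1 := by
      intro k hk
      rw [hdS k]
      exact (Finset.dvd_prod_of_mem (fun k => ∑ i ∈ S k, u k i * 2 ^ i)
        (Finset.mem_erase.2 ⟨hk, Finset.mem_univ k⟩)).trans hk₀
    have h1' : ∀ k, k ≠ k₀ → |d k| = 1 := fun k hk =>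
      Int.isUnit_iff_abs_eq.1 (isUnit_of_dvd_one (hdvd k hk))
    obtain ⟨k, l, hne, hk, hl⟩ := hkl
    by_cases h : k = k₀
    · have := h1' l (fun h' => hne (h.trans h'.symm))
      omega
    · have := h1' k h
      omega
  · refine h1.trans ?_
    have h2 : (∏ k, ∑ i ∈ S k, |u k i|) + 2 * |(1 : ℤ)| = ((∏ k, (S k).card + 2 : ℕ) : ℤ) := by
      rw [Finset.prod_congr rfl (fun k _ => sum_abs (S k) (u k) (hu k))]
      push_cast
      simp
    rw [h2, Int.natAbs_natCast]
    have h3 : Nat.log 2 (∏ k, (S k).card + 2) ≤ ∑ k, (S k).card + 1 := by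
      have h4 : ∏ k, (S k).card ≤ 2 ^ (∑ k, (S k).card) := by
        rw [← Finset.prod_pow_eq_pow_sum]
        exact Finset.prod_le_prod' fun k _ => Nat.lt_two_pow_self.le
      have h5 : ∏ k, (S k).card + 2 < 2 ^ (∑ k, (S k).card + 2) := by
        have h6 : 1 ≤ 2 ^ (∑ k, (S k).card) := Nat.one_le_two_pow
        rw [pow_add]
        omega
      have := Nat.log_lt_of_lt_pow (by omega) h5
      omega
    have h4 : ∑ k, (S k).card ≤ ∑ k, w k := Finset.sum_le_sum fun k _ => hS k
    calc (∑ k, (S k).card + 1) * Nat.multinomial univ (fun k => (S k).card) *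
          Nat.log 2 (∏ k, (S k).card + 2)
        ≤ (∑ k, (S k).card + 1) * r ^ (∑ k, (S k).card) * (∑ k, (S k).card + 1) := by
          refine Nat.mul_le_mul (Nat.mul_le_mul_left _ ?_) h3
          have := multinomial_le (fun k : Fin r => (S k).card)
          rwa [Fintype.card_fin] at this
      _ ≤ (∑ k, w k + 1) * r ^ (∑ k, w k) * (∑ k, w k + 1) :=
          Nat.mul_le_mul (Nat.mul_le_mul (by omega) (Nat.pow_le_pow_right hr h4)) (by omega)
      _ = _ := by ring

theorem two (m s t : ℕ) (d e : ℤ) (hde : d * e = 2 ^ (2 ^ m) + 1) (hd : 1 < |d|) (he : 1 < |e|)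
    (hs : IsSum s d) (ht : IsSum t e) :
    2 ^ m ≤ (s + t + 1) * (s + t).choose s * Nat.log 2 (s * t + 2) := by
  obtain ⟨S, u, hS, hu, hdS⟩ := hs
  obtain ⟨T, v, hT, hv, heT⟩ := ht
  have h1 := general m 2 1 one_ne_zero ![S, T] ![u, v] (by
    rw [Fin.prod_univ_two, one_mul, ← hde]
    simp [hdS, heT])
  rcases h1 with ⟨k₀, hk₀⟩ | h1
  · exfalso
    have hk : ∀ z : ℤ, 1 < |z| → ¬ z ∣ 1 := by
      intro z hz hz'
      have := Int.isUnit_iff_abs_eq.1 (isUnit_of_dvd_one hz')
      omega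
    fin_cases k₀
    · apply hk e he
      have h3 : (univ : Finset (Fin 2)).erase 0 = {1} := by decide
      simp only [Fin.zero_eta, h3, Finset.prod_singleton] at hk₀
      rw [heT]
      simpa using hk₀
    · apply hk d hd
      have h3 : (univ : Finset (Fin 2)).erase 1 = {0} := by decide
      simp only [Fin.mk_one, h3, Finset.prod_singleton] at hk₀
      rw [hdS]
      simpa using hk₀
  · have e0 : (fun k => (![S, T] k).card) = ![S.card, T.card] := by
      ext k
      fin_cases k <;> rfl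
    rw [Fin.prod_univ_two, Fin.sum_univ_two, e0, Nat.multinomial_univ_two] at h1
    have e1 : (![S, T] 0).card = S.card := rfl
    have e2 : (![S, T] 1).card = T.card := rfl
    have e3 : ∑ i ∈ ![S, T] 0, |![u, v] 0 i| = S.card := sum_abs S u hu
    have e4 : ∑ i ∈ ![S, T] 1, |![u, v] 1 i| = T.card := sum_abs T v hv
    rw [e1, e2, e3, e4] at h1
    have e5 : ((S.card : ℤ) * T.card + 2 * |(1 : ℤ)|).natAbs = S.card * T.card + 2 := by
      have : ((S.card : ℤ) * T.card + 2 * |(1 : ℤ)|) = ((S.card * T.card + 2 : ℕ) : ℤ) := by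
        push_cast; simp
      rw [this, Int.natAbs_natCast]
    rw [e5] at h1
    have e6 : (S.card + T.card).factorial / (S.card.factorial * T.card.factorial)
        = (S.card + T.card).choose S.card := by
      rw [Nat.choose_eq_factorial_div_factorial (by omega), Nat.add_sub_cancel_left]
    rw [e6] at h1
    refine h1.trans ?_
    have e7 : (S.card + T.card).choose S.card ≤ (s + t).choose s := by
      calc (S.card + T.card).choose S.card = (S.card + T.card).choose T.card := Nat.choose_symm_add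
        _ ≤ (s + T.card).choose T.card := Nat.choose_le_choose _ (by omega)
        _ = (s + T.card).choose s := Nat.choose_symm_add.symm
        _ ≤ (s + t).choose s := Nat.choose_le_choose _ (by omega)
    exact Nat.mul_le_mul (Nat.mul_le_mul (by omega) e7)
      (Nat.log_mono_right (Nat.add_le_add_right (Nat.mul_le_mul hS hT) 2))

theorem linear (m s t : ℕ) (d e : ℤ) (hde : d * e = 2 ^ (2 ^ m) + 1) (hd : 1 < |d|) (he : 1 < |e|)
    (hs : IsSum s d) (ht : IsSum t e) : m < s + t + 2 * Nat.log 2 m + 2 := by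
  by_contra hcon
  push Not at hcon
  have h1 := several m 2 ![d, e] ![s, t] (by rw [Fin.prod_univ_two]; simpa using hde)
    ⟨0, 1, by decide, by simpa using hd, by simpa using he⟩ (by
      intro k
      fin_cases k
      · simpa using hs
      · simpa using ht)
  rw [Fin.sum_univ_two] at h1
  have e1 : ![s, t] 0 = s := rfl
  have e2 : ![s, t] 1 = t := rfl
  rw [e1, e2] at h1
  have h2 : m < 2 ^ (Nat.log 2 m + 1) := Nat.lt_pow_succ_log_self (by norm_num) m
  have h3 : (s + t + 1) ^ 2 < (2 ^ (Nat.log 2 m + 1)) ^ 2 :=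
    Nat.pow_lt_pow_left (by omega) (by norm_num)
  have h4 : 2 ^ m < 2 ^ m := by
    calc 2 ^ m ≤ (s + t + 1) ^ 2 * 2 ^ (s + t) := h1
      _ < (2 ^ (Nat.log 2 m + 1)) ^ 2 * 2 ^ (s + t) := Nat.mul_lt_mul_of_pos_right h3 (by positivity)
      _ = 2 ^ (s + t + 2 * Nat.log 2 m + 2) := by rw [← pow_mul, ← pow_add]; congr 1; ring
      _ ≤ 2 ^ m := Nat.pow_le_pow_right (by norm_num) hcon
  exact lt_irrefl _ h4

/-- **Sparse factors of Fermat numbers.** -/
theorem result :
    -- multiples of `F_m`, arbitrary digits, any number of factors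
    (∀ (m r : ℕ) (c : ℤ), c ≠ 0 → ∀ (S : Fin r → Finset ℕ) (u : Fin r → ℕ → ℤ),
      ∏ k, ∑ i ∈ S k, u k i * 2 ^ i = c * (2 ^ (2 ^ m) + 1) →
      (∃ k₀, ∏ k ∈ univ.erase k₀, ∑ i ∈ S k, u k i * 2 ^ i ∣ c) ∨
        2 ^ m ≤ (∑ k, (S k).card + 1) * Nat.multinomial univ (fun k => (S k).card) *
          Nat.log 2 ((∏ k, ∑ i ∈ S k, |u k i|) + 2 * |c|).natAbs) ∧
    -- a factorization into `r` factors, not all but one trivial
    (∀ (m r : ℕ) (d : Fin r → ℤ) (w : Fin r → ℕ), ∏ k, d k = 2 ^ (2 ^ m) + 1 →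
      (∃ k l, k ≠ l ∧ 1 < |d k| ∧ 1 < |d l|) → (∀ k, IsSum (w k) (d k)) →
      2 ^ m ≤ (∑ k, w k + 1) ^ 2 * r ^ (∑ k, w k)) ∧
    -- two factors
    ∀ (m s t : ℕ) (d e : ℤ), d * e = 2 ^ (2 ^ m) + 1 → 1 < |d| → 1 < |e| →
      IsSum s d → IsSum t e →
      2 ^ m ≤ (s + t + 1) * (s + t).choose s * Nat.log 2 (s * t + 2) ∧
      m < s + t + 2 * Nat.log 2 m + 2 :=
  ⟨general, several, fun m s t d e hde hd he hs ht =>
    ⟨two m s t d e hde hd he hs ht, linear m s t d e hde hd he hs ht⟩⟩

end Pool.Agent.Results.MP_37e5fa_nt.SparseFactors
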